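import Mathlib
import Pool.Agent.Work.MP_caf7e3_lc.Defs

/-!
Functions computable within time `O(n ^ d)`.
-/

namespace Pool.Agent.Work.MP_caf7e3_lc

/-- `f` is computed by a multi-stack Turing machine of Mathlib within a number of steps that is
bounded by a polynomial of degree at most `d` in the length of the input. -/
def InDegree (d : ℕ) (f : List Bool → List Bool) : Prop :=
  ∃ M : Turing.TM2ComputableInPolyTime (fun x : List Bool => x) (fun x : List Bool => x) f,
    M.time.natDegree ≤ d

end Pool.Agent.Work.MP_caf7e3_lc
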