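import Mathlib
import Pool.Agent.Work.MP_caf7e3_lc.LB.Defs
import Pool.Agent.Work.MP_caf7e3_lc.Nec
import Pool.Agent.Work.MP_0532f7_lc.OSim

/-!
A one-to-one polynomial-time function whose range contains no range of a function that has,
together with a left inverse, a fixed polynomial time bound.
-/

namespace Pool.Agent.Work.MP_caf7e3_lc

open Pool.Agent.Work.MP_0532f7_lc

variable (b : List Bool) (K : List Bool → List Bool)

/-- the clocked test whether the function with code `fs v` maps `w` to a word beginning with `b`
and, unless `sn v` is empty, the function with code `(sn v).tail` maps that word back to `w` -/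
def hitL (v w : List Bool) : Bool :=
  decide (uni (fs v) w (K w) = true :: pr b (sn (uni (fs v) w (K w)).tail)) &&
    (decide (sn v = []) || decide (uni (sn v).tail (uni (fs v) w (K w)).tail
      (K (pr (uni (fs v) w (K w)).tail w)) = true :: w))

/-- test for the second component -/
def p1L (z : List Bool) : Bool := hitL b K (sn (fs z)) (pr (fs (fs z)) (sn z))

/-- the least second component that is hit -/
def JL (u v : List Bool) : ℕ := lst (p1L b K) (pr u v) (u.length + 2)

/-- test whether the second component is the least one for `v` -/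
def p2L (z : List Bool) : Bool :=
  decide (un (JL b K (fs (fs z)) (sn z)) = sn (fs z))

/-- the second component is not the least one for any of the first `|u| + 1` words -/
def p3L (z : List Bool) : Bool := !(exb (p2L b K) z ((fs z).length + 1))

/-- the second component of the value at `u` -/
def ffL (u : List Bool) : ℕ := lst (p3L b K) u (u.length + 2)

/-- the one-to-one function -/
def gL (u : List Bool) : List Bool := pr u (un (ffL b K u))

variable {b K}

theorem gL_inj : Function.Injective (gL b K) := by
  intro u v h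
  have := congrArg fs h
  simpa [gL, fs_pr] using this

theorem hitL_fp (hK : FP K) : FPb fun z => hitL b K (fs z) (sn z) := by
  have h1 : FP fun z => uni (fs (fs z)) (sn z) (K (sn z)) :=
    FP.uniI FP.fsI.fst FP.snI (hK.comp FP.snI)
  have h2 : FP fun z => (uni (fs (fs z)) (sn z) (K (sn z))).tail := FP.tail.comp h1
  refine FPb.and (FPb.eq h1 ((FP.cons true).comp ((FP.const b).pair h2.snd))) ?_
  refine FPb.or (FPb.eq FP.fsI.snd (FP.const [])) ?_
  exact FPb.eq (FP.uniI (FP.tail.comp FP.fsI.snd) h2 (hK.comp (h2.pair FP.snI)))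
    ((FP.cons true).comp FP.snI)

theorem p1L_fp (hK : FP K) : FPb (p1L b K) := by
  have h := (hitL_fp (b := b) hK).comp (FP.fsI.snd.pair (FP.fsI.fst.pair FP.snI))
  exact h.congr fun z => by simp [p1L, fs_pr, sn_pr]

theorem JL_fp (hK : FP K) : FP fun z => un (JL b K (fs z) (sn z)) := by
  have h := FP.lstI (p1L_fp (b := b) hK) (c := fun z => pr (fs z) (sn z))
    (k := fun z => true :: true :: fs z) (FP.fsI.pair FP.snI)
    ((FP.cons true).comp ((FP.cons true).comp FP.fsI))
  exact h.congr fun z => by simp [JL]

theorem p2L_fp (hK : FP K) : FPb (p2L b K) := by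
  have h := (JL_fp (b := b) hK).comp (FP.fsI.fst.pair FP.snI)
  have h1 : FP fun z => un (JL b K (fs (fs z)) (sn z)) :=
    h.congr fun z => by simp [fs_pr, sn_pr]
  exact FPb.eq h1 FP.fsI.snd

theorem p3L_fp (hK : FP K) : FPb (p3L b K) := by
  have h := FPb.exbI (p2L_fp (b := b) hK) (c := fun z => z) (k := fun z => true :: fs z)
    FP.id ((FP.cons true).comp FP.fsI)
  exact h.not.congr fun z => by simp [p3L]

theorem gL_fp (hK : FP K) : FP (gL b K) := by
  have h := FP.lstI (p3L_fp (b := b) hK) (c := fun z => z) (k := fun z => true :: true :: z)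
    FP.id ((FP.cons true).comp (FP.cons true))
  have h1 : FP fun z => un (ffL b K z) := h.congr fun z => by simp [ffL]
  exact FP.id.pair h1

theorem p3L_iff (u : List Bool) (j : ℕ) : p3L b K (pr u (un j)) = true ↔
    ∀ i ≤ u.length, JL b K u (num i) ≠ j := by
  rw [p3L, fs_pr, Bool.not_eq_true', ← Bool.not_eq_true, exb_iff]
  push Not
  constructor
  · intro h i hi hij
    refine h i (by omega) ?_
    rw [p2L, fs_pr, fs_pr, sn_pr, sn_pr, decide_eq_true_iff, hij]
  · intro h i hi hp
    rw [p2L, fs_pr, fs_pr, sn_pr, sn_pr, decide_eq_true_iff] at hp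
    exact h i (by omega) (un_inj hp)

theorem ffL_spec (u : List Bool) : ffL b K u < u.length + 2 ∧
    ∀ i ≤ u.length, JL b K u (num i) ≠ ffL b K u := by
  obtain ⟨h1, h2, h3⟩ := lst_spec (p3L b K) u (u.length + 2)
  change ffL b K u ≤ _ at h1
  change ∀ i < ffL b K u, _ at h2
  change ffL b K u < _ → p3L b K (pr u (un (ffL b K u))) = true at h3
  have hlt : ffL b K u < u.length + 2 := by
    by_contra hc
    have h4 : ∀ j < u.length + 2, ∃ i ≤ u.length, JL b K u (num i) = j := by
      intro j hj
      have h5 := h2 j (by omega)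
      rw [← Bool.not_eq_true, p3L_iff] at h5
      push Not at h5
      exact h5
    have h6 : (Finset.range (u.length + 2)).card ≤ (Finset.range (u.length + 1)).card := by
      refine (Finset.card_le_card (t := (Finset.range (u.length + 1)).image
        fun i => JL b K u (num i)) ?_).trans Finset.card_image_le
      intro j hj
      obtain ⟨i, hi, hi'⟩ := h4 j (by simpa using hj)
      exact Finset.mem_image.2 ⟨i, by simp; omega, hi'⟩
    simp at h6
  exact ⟨hlt, (p3L_iff u _).1 (h3 hlt)⟩

/-- if a value of `gL` is hit by a small code then so is a word outside the range of `gL` -/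
theorem kill {u v : List Bool} (hv : val v ≤ u.length) (h : hitL b K v (gL b K u) = true) :
    ∃ w, hitL b K v w = true ∧ w ∉ Set.range (gL b K) := by
  obtain ⟨h1, h2⟩ := ffL_spec (b := b) (K := K) u
  have h3 := h2 (val v) hv
  rw [num_val] at h3
  obtain ⟨-, h5, h6⟩ := lst_spec (p1L b K) (pr u v) (u.length + 2)
  change ∀ i < JL b K u v, _ at h5
  change JL b K u v < _ → p1L b K (pr (pr u v) (un (JL b K u v))) = true at h6
  have h7 : JL b K u v ≤ ffL b K u := by
    by_contra hc
    have h8 := h5 (ffL b K u) (by omega)
    rw [p1L, fs_pr, fs_pr, sn_pr, sn_pr] at h8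
    rw [gL] at h
    rw [h] at h8
    exact absurd h8 (by simp)
  have h9 := h6 (by omega)
  rw [p1L, fs_pr, fs_pr, sn_pr, sn_pr] at h9
  refine ⟨_, h9, ?_⟩
  rintro ⟨u', hu'⟩
  have e1 := congrArg fs hu'
  have e2 := congrArg sn hu'
  rw [gL, fs_pr, fs_pr] at e1
  rw [gL, sn_pr, sn_pr] at e2
  rw [e1] at e2
  exact h3 (un_inj e2).symm

end Pool.Agent.Work.MP_caf7e3_lc
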