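import Mathlib
import Pool.Agent.Work.MP_caf7e3_lc.LB.Diag
import Pool.Agent.Work.MP_caf7e3_lc.BH

/-!
No fixed degree bounds the running times of the isomorphisms.
-/

namespace Pool.Agent.Work.MP_caf7e3_lc

open Pool.Agent.Work.MP_0532f7_lc Polynomial

theorem eval_le_deg (P : Polynomial ℕ) {d : ℕ} (hd : P.natDegree ≤ d) (m : ℕ) {n : ℕ}
    (hn : P.eval 1 * m + 1 ≤ n) : P.eval n * m ≤ n ^ (d + 1) := by
  have h1 : P.eval n ≤ P.eval 1 * n ^ d := by
    rw [eval_eq_sum_range, eval_eq_sum_range, Finset.sum_mul]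
    refine Finset.sum_le_sum fun i hi => ?_
    rw [one_pow, mul_one]
    refine Nat.mul_le_mul_left _ (Nat.pow_le_pow_right (by omega) ?_)
    have := Finset.mem_range.1 hi
    omega
  calc P.eval n * m ≤ P.eval 1 * n ^ d * m := Nat.mul_le_mul_right _ h1
    _ = (P.eval 1 * m) * n ^ d := by ring
    _ ≤ n * n ^ d := Nat.mul_le_mul_right _ (by omega)
    _ = n ^ (d + 1) := by ring

/-- the universal function evaluates functions of bounded degree -/
theorem indeg_uni {d : ℕ} {f : List Bool → List Bool} (h : InDegree d f) :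
    ∃ (c : List Bool) (T : ℕ), ∀ x t,
      (∀ n, x.length ≤ n → T ≤ n → n ^ (d + 1) ≤ t.length → uni c x t = true :: f x) ∧
      (uni c x t = [] ∨ uni c x t = true :: f x) := by
  obtain ⟨M, hM⟩ := h
  refine ⟨codeOf M.tm M.inputAlphabet M.outputAlphabet, M.time.eval 1 * mxs M.tm + 1,
    fun x t => ?_⟩
  have h1 := (M.outputsFun x).evals_in_steps
  have h2 := (M.outputsFun x).steps_le_m
  have h3 := uni_codeOf M.tm M.inputAlphabet M.outputAlphabet x (f x) _ h1 t
  refine ⟨fun n hx hT hle => h3.1 ?_, h3.2⟩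
  refine (Nat.mul_le_mul_right _ (h2.trans (pmono M.time hx))).trans ?_
  exact (eval_le_deg M.time hM _ hT).trans hle

/-- hits that are values of `gL` and that occur for long words lead to a contradiction -/
theorem fin_hit {b : List Bool} {K h k : List Bool → List Bool} (hkh : ∀ i, k (h i) = i)
    (hran : ∀ y, h (pr b y) ∈ Set.range (gL b K)) {v : List Bool} {T : ℕ}
    (hhit : ∀ y, T ≤ (h (pr b y)).length → hitL b K v (h (pr b y)) = true)
    (hhr : ∀ w, hitL b K v w = true → w ∈ Set.range (gL b K)) : False := by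
  have hinj : Function.Injective fun y => h (pr b y) := by
    intro y y' hyy
    have h1 := congrArg k hyy
    simp only [hkh] at h1
    simpa [sn_pr] using congrArg sn h1
  set N := val v + T with hN
  have hfin : {y | (h (pr b y)).length ≤ 2 * N + 1 + (N + 2)}.Finite := by
    have h1 : {y : List Bool | y.length ≤ 2 * N + 1 + (N + 2)}.Finite :=
      (List.finite_length_lt Bool (2 * N + 1 + (N + 2) + 1)).subset
        (fun y hy => Nat.lt_succ_of_le hy)
    exact h1.preimage hinj.injOn
  obtain ⟨y, hy⟩ := hfin.infinite_compl.nonempty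
  rw [Set.mem_compl_iff, Set.mem_ofPred_eq, not_le] at hy
  obtain ⟨u, hu⟩ := hran y
  have hul : N ≤ u.length := by
    by_contra hc
    rw [← hu, gL, pr_length, un_length] at hy
    have := (ffL_spec (b := b) (K := K) u).1
    omega
  have h1 := hhit y (by omega)
  rw [← hu] at h1
  obtain ⟨w, hw, hw'⟩ := kill (b := b) (K := K) (u := u) (v := v) (by omega) h1
  exact hw' (hhr w hw)

theorem lower_bound (d : ℕ) : ∃ φ : List Bool → ℕ →. ℕ, GNPTime φ ∧
    (∃ (h k : List Bool → List Bool) (c : ℕ), PolyTime h ∧ PolyTime k ∧ (∀ i, k (h i) = i) ∧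
      (∀ i, h (k i) = i) ∧ (∀ i, nu i = φ (h i)) ∧ (∀ i, (h i).length ≤ 3 * i.length + 3) ∧
      ∀ i, (k i).length ≤ i.length + c) ∧
    ∀ h k : List Bool → List Bool, (∀ i, k (h i) = i) → (∀ i, nu i = φ (h i)) →
      InDegree d k → ¬ InDegree d h ∧ ¬ ∀ i, h (k i) = i := by
  obtain ⟨b, hb⟩ := nu_const
  obtain ⟨K, hK, hKl⟩ := FP.clock (X ^ (d + 1))
  have hKl' : ∀ z, (K z).length = z.length ^ (d + 1) := by
    intro z; rw [hKl, eval_pow, eval_X]
  have hgn := mu_gnp (gL_fp (b := b) hK) gL_inj
  refine ⟨mu (gL b K), hgn, ?_, fun h k hkh hn hk => ?_⟩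
  · obtain ⟨a, ha⟩ := nu_univ hgn.1.1
    obtain ⟨h, k, hh, hk, hkh, hhk, hor⟩ := bh
      (f := gL b K) (f' := fs) (g := fun i => pr a i) (g' := sn)
      (gL_fp hK) FP.fsI ((FP.const a).pair FP.id) FP.snI
      (fun x => by rw [gL, fs_pr]) (fun y => by simp only [sn_pr])
      (fun x => by rw [gL, pr_length]; omega)
      (fun y => by simp only [pr_length]; omega)
    have hlen : ∀ i, (h i).length ≤ 3 * i.length + 3 ∧ i.length ≤ (h i).length +
        (2 * a.length + 1) := by
      intro i
      rcases hor i with h1 | h1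
      · rw [h1, gL, pr_length, un_length]
        have := (ffL_spec (b := b) (K := K) i).1
        omega
      · have h2 := congrArg List.length h1
        simp only [pr_length] at h2
        omega
    refine ⟨h, k, 2 * a.length + 1, FP.polyTime hh, FP.polyTime hk, hkh, hhk, fun i => ?_,
      fun i => (hlen i).1, fun i => ?_⟩
    · rcases hor i with h1 | h1
      · rw [h1, mu_g gL_inj]
      · rw [ha, h1]
    · have h1 := (hlen (k i)).2
      rwa [hhk] at h1
  -- values of `h` on words beginning with `b` are in the range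
  have hran : ∀ y, h (pr b y) ∈ Set.range (gL b K) := by
    intro y
    by_contra hc
    have h1 := congrFun (hn (pr b y)) 0
    rw [hb, mu_none hc] at h1
    exact Part.some_ne_none _ h1
  obtain ⟨ck, Tk, Hk⟩ := indeg_uni hk
  have e1 : ∀ y, Tk ≤ (h (pr b y)).length →
      uni ck (h (pr b y)) (K (h (pr b y))) = true :: pr b y := by
    intro y h2
    rw [(Hk _ _).1 (h (pr b y)).length le_rfl h2 (by rw [hKl']), hkh]
  constructor
  · intro hh
    obtain ⟨ch, Th, Hh⟩ := indeg_uni hh
    refine fin_hit (b := b) (K := K) hkh hran (v := pr ck (true :: ch)) (T := Tk + Th) ?_ ?_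
    · intro y h1
      have e2 : uni ch (pr b y) (K (pr (pr b y) (h (pr b y)))) = true :: h (pr b y) := by
        refine (Hh _ _).1 (pr (pr b y) (h (pr b y))).length ?_ ?_ (by rw [hKl'])
        · rw [pr_length (pr b y)]; omega
        · rw [pr_length (pr b y)]; omega
      rw [hitL, fs_pr, sn_pr, e1 y (by omega), List.tail_cons, List.tail_cons, sn_pr, e2]
      simp
    · intro w hw
      rw [hitL, Bool.and_eq_true, Bool.or_eq_true, decide_eq_true_iff, decide_eq_true_iff,
        decide_eq_true_iff, fs_pr, sn_pr, List.tail_cons] at hw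
      obtain ⟨h1, h2⟩ := hw
      have h2' := h2.resolve_left (by simp)
      rcases (Hh (uni ck w (K w)).tail (K (pr (uni ck w (K w)).tail w))).2 with h3 | h3
      · rw [h3] at h2'; exact absurd h2' (by simp)
      · rw [h3] at h2'
        have h4 : h (uni ck w (K w)).tail = w := (List.cons.inj h2').2
        have h5 : (uni ck w (K w)).tail = pr b (sn (uni ck w (K w)).tail) := by
          conv_lhs => rw [h1]
          rfl
        rw [← h4, h5]
        exact hran _
  · intro hhk
    refine fin_hit (b := b) (K := K) hkh hran (v := pr ck []) (T := Tk) ?_ ?_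
    · intro y h1
      rw [hitL, fs_pr, sn_pr, e1 y h1, List.tail_cons, sn_pr]
      simp
    · intro w hw
      rw [hitL, Bool.and_eq_true, decide_eq_true_iff, fs_pr] at hw
      obtain ⟨h1, -⟩ := hw
      rcases (Hk w (K w)).2 with h3 | h3
      · rw [h3] at h1; exact absurd h1 (by simp)
      · rw [h3] at h1
        have h4 := (List.cons.inj h1).2
        rw [← hhk w, h4]
        exact hran _

end Pool.Agent.Work.MP_caf7e3_lc
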